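import Mathlib

/-!
# No relator of a trivial-group presentation need be replaceable by a primitive element

For every `n ≥ 3` (in particular for every `n ≥ 4`) we construct a balanced presentation
`⟨x_1, …, x_n ∣ r_1, …, r_n⟩` of the trivial group such that, whichever relator `r_i` is replaced
by whichever primitive element `p` of the free group, the resulting group is nontrivial.

Idea: let `T_1, …, T_n` be alternating groups of distinct prime degrees `≥ 5`.
Working modulo the (finitely many) kernels of epimorphisms `F_n → T_j`, one performs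
Andrews-Curtis moves on the tuple of generators until `r_i` lies in the kernel of every
epimorphism `F_n → T_j`, for all `j ≠ i`.
A primitive element is killed by some epimorphism onto `T_i`,
which also kills all `r_j`, `j ≠ i`.
-/

namespace Pool.Agent.Results.MP_4f7194_al.NoPrimitiveSwap

/-- An element of a group is primitive if it belongs to some free basis of the group. -/
def IsPrimitiveElt {G : Type} [Group G] (p : G) : Prop :=
  ∃ (ι : Type) (b : FreeGroupBasis ι G) (i : ι), b i = p

/-- Normal subgroups behaving like maximal ideals: kernels of maps onto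
nonabelian simple groups. -/
structure PM {F : Type*} [Group F] (M : Subgroup F) : Prop where
  normal : M.Normal
  ne_top : M ≠ ⊤
  maxl : ∀ N : Subgroup F, N.Normal → ¬ N ≤ M → M ⊔ N = ⊤
  prime : ∀ A B : Subgroup F, A.Normal → B.Normal → ⁅A, B⁆ ≤ M → A ≤ M ∨ B ≤ M

section General

variable {F : Type*} [Group F]

theorem PM.eq_of_le {S M : Subgroup F} (hS : PM S) (hM : PM M) (h : S ≤ M) : S = M := by
  by_contra hne
  have h1 : ¬ M ≤ S := fun h2 => hne (le_antisymm h h2)
  have := hS.maxl M hM.normal h1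
  rw [sup_eq_right.mpr h] at this
  exact hM.ne_top this

theorem inf_not_le {M : Subgroup F} (hM : PM M) {C : Subgroup F} (hC : C.Normal)
    (hCM : ¬ C ≤ M) (S : Finset (Subgroup F)) (hS : ∀ N ∈ S, PM N) (hMS : M ∉ S) :
    ∃ D : Subgroup F, D.Normal ∧ D ≤ C ∧ (∀ N ∈ S, D ≤ N) ∧ ¬ D ≤ M := by
  classical
  induction S using Finset.induction_on with
  | empty => exact ⟨C, hC, le_rfl, by simp, hCM⟩
  | insert N S hN ih =>
    obtain ⟨D, hD, hDC, hDS, hDM⟩ := ih (fun N' h => hS N' (Finset.mem_insert_of_mem h))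
      (fun h => hMS (Finset.mem_insert_of_mem h))
    have hNPM := hS N (Finset.mem_insert_self _ _)
    have := hNPM.normal
    refine ⟨D ⊓ N, inferInstance, inf_le_left.trans hDC, ?_, ?_⟩
    · intro N' hN'
      rcases Finset.mem_insert.mp hN' with rfl | h
      · exact inf_le_right
      · exact inf_le_left.trans (hDS N' h)
    · intro hle
      have hcomm : ⁅D, N⁆ ≤ M := (Subgroup.commutator_le_inf D N).trans hle
      rcases hM.prime D N hD hNPM.normal hcomm with h | h
      · exact hDM h
      · exact hMS (by rw [← hNPM.eq_of_le hM h]; exact Finset.mem_insert_self _ _)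

theorem solve_one {M : Subgroup F} (hM : PM M) {C : Subgroup F} (hC : C.Normal)
    (hCM : ¬ C ≤ M) (S : Finset (Subgroup F)) (hS : ∀ N ∈ S, PM N) (hMS : M ∉ S) (g : F) :
    ∃ c ∈ C, (∀ N ∈ S, c ∈ N) ∧ c⁻¹ * g ∈ M := by
  obtain ⟨D, hD, hDC, hDS, hDM⟩ := inf_not_le hM hC hCM S hS hMS
  have htop := hM.maxl D hD hDM
  have := hM.normal
  have hg : g ∈ D ⊔ M := by rw [sup_comm, htop]; trivial
  rw [← SetLike.mem_coe, Subgroup.mul_normal] at hg
  obtain ⟨c, hc, m, hm, rfl⟩ := Set.mem_mul.mp hg
  exact ⟨c, hDC hc, fun N hN => hDS N hN hc, by simpa using hm⟩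

/-- Simultaneous congruences inside a normal subgroup. -/
theorem solve_many (A : Finset (Subgroup F)) (hA : ∀ N ∈ A, PM N) {C : Subgroup F}
    (hC : C.Normal) (g : Subgroup F → F) (T : Finset (Subgroup F)) (hTA : T ⊆ A)
    (hT : ∀ M ∈ T, ¬ C ≤ M) :
    ∃ c ∈ C, (∀ M ∈ T, c⁻¹ * g M ∈ M) ∧ (∀ M ∈ A, M ∉ T → c ∈ M) := by
  classical
  induction T using Finset.induction_on with
  | empty => exact ⟨1, C.one_mem, by simp, fun M _ _ => M.one_mem⟩
  | insert N T hN ih =>
    obtain ⟨c, hcC, hcT, hcA⟩ := ih (fun M h => hTA (Finset.mem_insert_of_mem h))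
      (fun M h => hT M (Finset.mem_insert_of_mem h))
    have hNA := hTA (Finset.mem_insert_self _ _)
    obtain ⟨d, hdC, hdA, hdN⟩ := solve_one (hA N hNA) hC (hT N (Finset.mem_insert_self _ _))
      (A.erase N) (fun M h => hA M (Finset.mem_of_mem_erase h)) (Finset.notMem_erase N A) (g N)
    refine ⟨c * d, C.mul_mem hcC hdC, ?_, ?_⟩
    · intro M hM
      rcases Finset.mem_insert.mp hM with rfl | h
      · -- c ∈ M
        have := (hA _ hNA).normal
        have hcM : c ∈ M := hcA M hNA hN
        have h1 : (c * d)⁻¹ * g M = (d⁻¹ * c⁻¹ * d⁻¹⁻¹) * (d⁻¹ * g M) := by group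
        rw [h1]
        exact M.mul_mem (this.conj_mem _ (M.inv_mem hcM) _) hdN
      · have hMN : M ≠ N := fun e => hN (e ▸ h)
        have hMA := hTA hM
        have := (hA M hMA).normal
        have hdM : d ∈ M := hdA M (Finset.mem_erase.mpr ⟨hMN, hMA⟩)
        have h1 : (c * d)⁻¹ * g M = d⁻¹ * (c⁻¹ * g M) := by group
        rw [h1]
        exact M.mul_mem (M.inv_mem hdM) (hcT M h)
    · intro M hMA hM
      have h1 : M ≠ N := fun e => hM (e ▸ Finset.mem_insert_self _ _)
      have h2 : M ∉ T := fun h => hM (Finset.mem_insert_of_mem h)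
      exact M.mul_mem (hcA M hMA h2) (hdA M (Finset.mem_erase.mpr ⟨h1, hMA⟩))

end General

/-- Kernels of epimorphisms onto nonabelian simple groups have property `PM`. -/
theorem PM.ker {F T : Type*} [Group F] [Group T] [IsSimpleGroup T]
    (hT : ∃ a b : T, a * b ≠ b * a) (φ : F →* T) (hφ : Function.Surjective φ) : PM φ.ker := by
  obtain ⟨a, b, hab⟩ := hT
  have key : ∀ N : Subgroup F, N.Normal → ¬ N ≤ φ.ker → N.map φ = ⊤ := by
    intro N hN hle
    have : (N.map φ).Normal := hN.map φ hφ
    rcases this.eq_bot_or_eq_top with h | h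
    · exact absurd ((Subgroup.map_eq_bot_iff N).mp h) hle
    · exact h
  refine ⟨inferInstance, ?_, ?_, ?_⟩
  · intro h
    have h1 : ∀ x, φ x = 1 := fun x => by
      have : x ∈ φ.ker := by rw [h]; trivial
      exact this
    obtain ⟨x, rfl⟩ := hφ a
    obtain ⟨y, rfl⟩ := hφ b
    exact hab (by simp [h1])
  · intro N hN hle
    have h := key N hN hle
    rw [eq_top_iff]
    intro x _
    have hx : φ x ∈ N.map φ := by rw [h]; trivial
    obtain ⟨y, hy, hyx⟩ := hx
    have h1 : x * y⁻¹ ∈ φ.ker := by simp [MonoidHom.mem_ker, hyx]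
    have h2 : x = (x * y⁻¹) * y := by group
    rw [h2]
    exact (φ.ker ⊔ N).mul_mem (Subgroup.mem_sup_left h1) (Subgroup.mem_sup_right hy)
  · intro A B hA hB hcomm
    by_contra hcon
    push Not at hcon
    have hA' := key A hA hcon.1
    have hB' := key B hB hcon.2
    have ha : a ∈ A.map φ := by rw [hA']; trivial
    have hb : b ∈ B.map φ := by rw [hB']; trivial
    obtain ⟨x, hx, rfl⟩ := ha
    obtain ⟨y, hy, rfl⟩ := hb
    have h1 := hcomm (Subgroup.commutator_mem_commutator hx hy)
    rw [MonoidHom.mem_ker, map_commutatorElement, commutatorElement_eq_one_iff_mul_comm] at h1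
    exact hab h1

/-- The Andrews-Curtis type construction: from generators `x i` of `F` and finite sets `K i` of
`PM` subgroups, pairwise disjoint, one gets normal generators `r i` such that `r i` lies in every
member of `K j`, `j ≠ i`. -/
theorem exists_deep {F : Type*} [Group F] {n : ℕ} (x : Fin (n + 1) → F)
    (hx : Subgroup.closure (Set.range x) = ⊤)
    (K : Fin (n + 1) → Finset (Subgroup F)) (hK : ∀ i, ∀ M ∈ K i, PM M)
    (hdisj : ∀ i j M, M ∈ K i → M ∈ K j → i = j) :
    ∃ r : Fin (n + 1) → F, Subgroup.normalClosure (Set.range r) = ⊤ ∧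
      ∀ i j, i ≠ j → ∀ M ∈ K j, r i ∈ M := by
  classical
  let A : Finset (Subgroup F) := Finset.univ.biUnion K
  have hA : ∀ M ∈ A, PM M := by
    intro M hM
    obtain ⟨i, _, hi⟩ := Finset.mem_biUnion.mp hM
    exact hK i M hi
  have hKA : ∀ i, ∀ M ∈ K i, M ∈ A := fun i M hM =>
    Finset.mem_biUnion.mpr ⟨i, Finset.mem_univ _, hM⟩
  -- a normal subgroup containing all `x i` is everything
  have gen : ∀ N : Subgroup F, (∀ i, x i ∈ N) → N = ⊤ := by
    intro N hN
    rw [eq_top_iff, ← hx, Subgroup.closure_le]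
    rintro _ ⟨i, rfl⟩
    exact hN i
  -- Step A
  let C : Subgroup F := Subgroup.normalClosure (Set.range (fun i : Fin n => x i.succ))
  have hC : C.Normal := Subgroup.normalClosure_normal
  have hxC : ∀ i : Fin n, x i.succ ∈ C := fun i => Subgroup.subset_normalClosure ⟨i, rfl⟩
  have exout : ∀ M : Subgroup F, PM M → ∃ g, g ∉ M := by
    intro M hM
    by_contra h
    push Not at h
    exact hM.ne_top (eq_top_iff.mpr fun y _ => h y)
  choose! out hout using exout
  obtain ⟨c₁, hc₁C, hc₁T, hc₁A⟩ := solve_many A hA hC out (A.filter (fun M => x 0 ∈ M))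
    (Finset.filter_subset _ _) (by
      intro M hM hle
      obtain ⟨hMA, hx0⟩ := Finset.mem_filter.mp hM
      refine (hA M hMA).ne_top (gen M ?_)
      intro i
      refine Fin.cases hx0 (fun j => hle (hxC j)) i)
  set r₀ : F := x 0 * c₁ with hr₀
  have hr₀M : ∀ M ∈ A, r₀ ∉ M := by
    intro M hMA hmem
    by_cases hx0 : x 0 ∈ M
    · have h1 := hc₁T M (Finset.mem_filter.mpr ⟨hMA, hx0⟩)
      have h2 : c₁ ∈ M := by
        have : c₁ = (x 0)⁻¹ * r₀ := by rw [hr₀]; group
        rw [this]; exact M.mul_mem (M.inv_mem hx0) hmem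
      have h3 : out M ∈ M := by
        have : out M = c₁ * (c₁⁻¹ * out M) := by group
        rw [this]; exact M.mul_mem h2 h1
      exact hout M (hA M hMA) h3
    · have h1 : c₁ ∈ M := hc₁A M hMA (fun h => hx0 (Finset.mem_filter.mp h).2)
      apply hx0
      have : x 0 = r₀ * c₁⁻¹ := by rw [hr₀]; group
      rw [this]; exact M.mul_mem hmem (M.inv_mem h1)
  -- Step B
  let R : Subgroup F := Subgroup.normalClosure {r₀}
  have hR : R.Normal := Subgroup.normalClosure_normal
  have hr₀R : r₀ ∈ R := Subgroup.subset_normalClosure rfl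
  have hRM : ∀ M ∈ A, ¬ R ≤ M := fun M hM hle => hr₀M M hM (hle hr₀R)
  have stepB : ∀ i : Fin n, ∃ c ∈ R, (∀ j, i.succ ≠ j → ∀ M ∈ K j, x i.succ * c ∈ M) ∧
      (∀ M ∈ K i.succ, x i.succ * c ∉ M) := by
    intro i
    obtain ⟨c, hcR, hcT, -⟩ := solve_many A hA hR
      (fun M => if M ∈ K i.succ then (x i.succ)⁻¹ * r₀ else (x i.succ)⁻¹) A
      (Finset.Subset.refl _) hRM
    refine ⟨c, hcR, ?_, ?_⟩
    · intro j hij M hM
      have hMi : M ∉ K i.succ := fun h => hij (hdisj _ _ M h hM)
      have h1 := hcT M (hKA j M hM)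
      simp only [hMi, if_false] at h1
      have h2 := M.inv_mem h1
      have h3 : (c⁻¹ * (x i.succ)⁻¹)⁻¹ = x i.succ * c := by group
      rwa [h3] at h2
    · intro M hM hmem
      have hMA := hKA _ M hM
      have h1 := hcT M hMA
      simp only [hM, if_true] at h1
      have h2 := M.mul_mem hmem h1
      have h3 : x i.succ * c * (c⁻¹ * ((x i.succ)⁻¹ * r₀)) = r₀ := by group
      rw [h3] at h2
      exact hr₀M M hMA h2
  choose c hcR hcout hcin using stepB
  -- Step C
  let R' : Subgroup F := Subgroup.normalClosure (Set.range (fun i : Fin n => x i.succ * c i))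
  have hR' : R'.Normal := Subgroup.normalClosure_normal
  have hxcR' : ∀ i : Fin n, x i.succ * c i ∈ R' := fun i =>
    Subgroup.subset_normalClosure ⟨i, rfl⟩
  obtain ⟨c₀, hc₀R', hc₀T, -⟩ := solve_many A hA hR' (fun _ => r₀⁻¹)
    (A.filter (fun M => M ∉ K 0)) (Finset.filter_subset _ _) (by
      intro M hM hle
      obtain ⟨hMA, hM0⟩ := Finset.mem_filter.mp hM
      obtain ⟨j, _, hj⟩ := Finset.mem_biUnion.mp hMA
      revert hj
      refine Fin.cases (fun h => absurd h hM0) (fun i h => ?_) j
      exact hcin i M h (hle (hxcR' i)))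
  let r : Fin (n + 1) → F := Fin.cons (r₀ * c₀) (fun i => x i.succ * c i)
  have hr0 : r 0 = r₀ * c₀ := rfl
  have hrs : ∀ i : Fin n, r i.succ = x i.succ * c i := fun i => rfl
  refine ⟨r, ?_, ?_⟩
  · -- normal generation
    let N : Subgroup F := Subgroup.normalClosure (Set.range r)
    have hN : N.Normal := Subgroup.normalClosure_normal
    have hrN : ∀ i, r i ∈ N := fun i => Subgroup.subset_normalClosure ⟨i, rfl⟩
    have hR'N : R' ≤ N := by
      refine Subgroup.normalClosure_le_normal ?_
      rintro _ ⟨i, rfl⟩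
      exact hrN i.succ
    have hr₀N : r₀ ∈ N := by
      have : r₀ = r 0 * c₀⁻¹ := by rw [hr0]; group
      rw [this]
      exact N.mul_mem (hrN 0) (N.inv_mem (hR'N hc₀R'))
    have hRN : R ≤ N := by
      refine Subgroup.normalClosure_le_normal ?_
      rintro _ rfl
      exact hr₀N
    have hxsN : ∀ i : Fin n, x i.succ ∈ N := by
      intro i
      have : x i.succ = r i.succ * (c i)⁻¹ := by rw [hrs]; group
      rw [this]
      exact N.mul_mem (hrN _) (N.inv_mem (hRN (hcR i)))
    have hCN : C ≤ N := by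
      refine Subgroup.normalClosure_le_normal ?_
      rintro _ ⟨i, rfl⟩
      exact hxsN i
    refine gen N ?_
    intro i
    refine Fin.cases ?_ hxsN i
    have : x 0 = r₀ * c₁⁻¹ := by rw [hr₀]; group
    rw [this]
    exact N.mul_mem hr₀N (N.inv_mem (hCN hc₁C))
  · intro i
    refine Fin.cases ?_ (fun i => ?_) i
    · intro j hj M hM
      have hM0 : M ∉ K 0 := fun h => hj (hdisj _ _ M h hM)
      have h1 := hc₀T M (Finset.mem_filter.mpr ⟨hKA j M hM, hM0⟩)
      have h2 := M.inv_mem h1
      have h3 : (c₀⁻¹ * r₀⁻¹)⁻¹ = r₀ * c₀ := by group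
      rw [h3] at h2
      exact h2
    · intro j hj M hM
      exact hcout i j hj M hM

/-! ## Alternating groups of prime degree -/

/-- The 3-cycle `(0 1 2)` of `Fin (m + 3)`. -/
def tri (m : ℕ) : Equiv.Perm (Fin (m + 3)) :=
  Equiv.swap 0 1 * Equiv.swap 0 2

theorem tri_isThreeCycle (m : ℕ) : (tri m).IsThreeCycle := by
  have h1 : (((1 : Fin (m + 3)) : ℕ)) = 1 := rfl
  have h2 : (((2 : Fin (m + 3)) : ℕ)) = 2 := rfl
  have h0 : (((0 : Fin (m + 3)) : ℕ)) = 0 := rfl
  apply Equiv.Perm.isThreeCycle_swap_mul_swap_same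
  · intro h
    have := congrArg Fin.val h
    rw [h0, h1] at this
    omega
  · intro h
    have := congrArg Fin.val h
    rw [h0, h2] at this
    omega
  · intro h
    have := congrArg Fin.val h
    rw [h1, h2] at this
    omega

theorem alt_gen (m : ℕ) (hp : (m + 3).Prime) (G : Subgroup (Equiv.Perm (Fin (m + 3))))
    (h1 : finRotate (m + 3) ∈ G) (h2 : tri m ∈ G) : alternatingGroup (Fin (m + 3)) ≤ G := by
  have htrans : MulAction.IsPretransitive G (Fin (m + 3)) := by
    have hz : ∀ k : ℕ, ∀ hk : k < m + 3, ∃ g : G, g • (0 : Fin (m + 3)) = ⟨k, hk⟩ := by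
      intro k
      induction k with
      | zero => intro hk; exact ⟨1, by simp⟩
      | succ k ih =>
        intro hk
        obtain ⟨g, hg⟩ := ih (by omega)
        refine ⟨⟨finRotate (m + 3), h1⟩ * g, ?_⟩
        rw [mul_smul, hg]
        change finRotate (m + 3) ⟨k, _⟩ = _
        exact finRotate_of_lt (by omega)
    rw [MulAction.isPretransitive_iff_base (0 : Fin (m + 3))]
    intro y
    exact hz y.1 y.2
  have hprim : MulAction.IsPreprimitive G (Fin (m + 3)) :=
    MulAction.IsPreprimitive.of_prime_card (by simpa using hp)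
  exact Equiv.Perm.alternatingGroup_le_of_isPreprimitive_of_isThreeCycle_mem hprim
    (tri_isThreeCycle m) h2

/-- The alternating group of prime degree `m + 3` is generated by two elements. -/
theorem alt_two_gen (m : ℕ) (hp : (m + 3).Prime) (hodd : Even (m + 2)) :
    ∃ a b : alternatingGroup (Fin (m + 3)), Subgroup.closure {a, b} = ⊤ := by
  have ha : finRotate (m + 3) ∈ alternatingGroup (Fin (m + 3)) := by
    rw [Equiv.Perm.mem_alternatingGroup, sign_finRotate]
    exact hodd.neg_one_pow
  have hb : tri m ∈ alternatingGroup (Fin (m + 3)) := (tri_isThreeCycle m).mem_alternatingGroup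
  refine ⟨⟨_, ha⟩, ⟨_, hb⟩, ?_⟩
  rw [eq_top_iff]
  intro y _
  have h1 := alt_gen m hp (Subgroup.map (alternatingGroup (Fin (m + 3))).subtype
    (Subgroup.closure {⟨_, ha⟩, ⟨_, hb⟩}))
    ⟨⟨_, ha⟩, Subgroup.subset_closure (by simp), rfl⟩
    ⟨⟨_, hb⟩, Subgroup.subset_closure (by simp), rfl⟩
  obtain ⟨z, hz, hzy⟩ := h1 y.2
  have : z = y := Subtype.ext hzy
  exact this ▸ hz

theorem alt_noncomm (m : ℕ) (hm : 2 ≤ m) :
    ∃ a b : alternatingGroup (Fin (m + 3)), a * b ≠ b * a := by
  by_contra hcon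
  push Not at hcon
  have hs : IsSimpleGroup (alternatingGroup (Fin (m + 3))) :=
    alternatingGroup.isSimpleGroup (by simp; omega)
  have hc : Subgroup.center (alternatingGroup (Fin (m + 3))) = ⊥ :=
    alternatingGroup.center_eq_bot (by simp; omega)
  have hc' : Subgroup.center (alternatingGroup (Fin (m + 3))) = ⊤ := by
    rw [eq_top_iff]
    intro x _
    rw [Subgroup.mem_center_iff]
    intro y
    exact hcon y x
  exact bot_ne_top (hc.symm.trans hc')

/-- Infinitely many degrees: `deg j + 3` is the `(j+3)`-rd prime `5, 7, 11, …`. -/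
noncomputable def deg (j : ℕ) : ℕ := Nat.nth Nat.Prime (j + 2) - 3

theorem five_le_nth (j : ℕ) : 5 ≤ Nat.nth Nat.Prime (j + 2) := by
  have h2 : Nat.nth Nat.Prime 2 = 5 := Nat.nth_prime_two_eq_five
  rw [← h2]
  exact (Nat.nth_strictMono Nat.infinite_setOfPred_prime).monotone (by omega)

theorem deg_add (j : ℕ) : deg j + 3 = Nat.nth Nat.Prime (j + 2) := by
  have := five_le_nth j
  unfold deg
  omega

theorem deg_prime (j : ℕ) : (deg j + 3).Prime := by
  rw [deg_add]
  exact Nat.prime_nth_prime _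

theorem two_le_deg (j : ℕ) : 2 ≤ deg j := by
  have := five_le_nth j
  unfold deg
  omega

theorem deg_even (j : ℕ) : Even (deg j + 2) := by
  have h1 := (deg_prime j).odd_of_ne_two (by have := two_le_deg j; omega)
  have h2 := h1
  rw [Nat.odd_iff] at h2
  rw [Nat.even_iff]
  omega

theorem deg_inj {i j : ℕ} (h : deg i = deg j) : i = j := by
  have h1 : Nat.nth Nat.Prime (i + 2) = Nat.nth Nat.Prime (j + 2) := by
    rw [← deg_add, ← deg_add, h]
  have := (Nat.nth_strictMono Nat.infinite_setOfPred_prime).injective h1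
  omega

theorem card_alt_inj {m k : ℕ}
    (h : Nat.card (alternatingGroup (Fin (m + 3))) = Nat.card (alternatingGroup (Fin (k + 3)))) :
    m = k := by
  have h1 := two_mul_nat_card_alternatingGroup (α := Fin (m + 3))
  have h2 := two_mul_nat_card_alternatingGroup (α := Fin (k + 3))
  rw [h, h2, Nat.card_perm, Nat.card_perm, Nat.card_fin, Nat.card_fin] at h1
  have := (Nat.factorial_inj (by omega)).mp h1
  omega

/-- For `n ≥ 3`, every primitive element of `F_n` is killed by some epimorphism onto a given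
2-generated group. -/
theorem exists_epi_killing {n : ℕ} (hn : 3 ≤ n) {T : Type} [Group T]
    (hT : ∃ a b : T, Subgroup.closure {a, b} = ⊤) (p : FreeGroup (Fin n))
    (hp : IsPrimitiveElt p) :
    ∃ φ : FreeGroup (Fin n) →* T, Function.Surjective φ ∧ φ p = 1 := by
  classical
  obtain ⟨ι, b, i₀, rfl⟩ := hp
  obtain ⟨s, t, hst⟩ := hT
  have e : ι ≃ Fin n := Equiv.ofFreeGroupEquiv b.repr.symm
  have hfin : Fintype ι := Fintype.ofEquiv _ e.symm
  have hcard : Fintype.card ι = n := by rw [Fintype.card_congr e, Fintype.card_fin]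
  obtain ⟨i₁, hi₁⟩ : ∃ i₁ : ι, i₁ ∉ ({i₀} : Finset ι) := by
    by_contra h
    push Not at h
    have := Finset.card_le_card (fun x _ => h x : (Finset.univ : Finset ι) ⊆ {i₀})
    rw [Finset.card_univ, hcard, Finset.card_singleton] at this
    omega
  obtain ⟨i₂, hi₂⟩ : ∃ i₂ : ι, i₂ ∉ ({i₀, i₁} : Finset ι) := by
    by_contra h
    push Not at h
    have := Finset.card_le_card (fun x _ => h x : (Finset.univ : Finset ι) ⊆ {i₀, i₁})
    have h2 := Finset.card_le_two (a := i₀) (b := i₁)
    rw [Finset.card_univ, hcard] at this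
    omega
  simp only [Finset.mem_singleton, Finset.mem_insert, not_or] at hi₁ hi₂
  let φ : FreeGroup (Fin n) →* T :=
    b.lift (fun k => if k = i₁ then s else if k = i₂ then t else 1)
  have h1 : φ (b i₁) = s := by simp [φ]
  have h2 : φ (b i₂) = t := by simp [φ, hi₂.2]
  refine ⟨φ, ?_, ?_⟩
  · rw [← MonoidHom.range_eq_top, eq_top_iff, ← hst, Subgroup.closure_le]
    rintro x hx
    rcases hx with rfl | rfl
    · exact ⟨_, h1⟩
    · exact ⟨_, h2⟩
  · simp [φ, Ne.symm hi₁, Ne.symm hi₂.1]

theorem result (n : ℕ) (hn : 3 ≤ n) :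
    ∃ r : Fin n → FreeGroup (Fin n),
      Subsingleton (PresentedGroup (Set.range r)) ∧
      ∀ (i : Fin n) (p : FreeGroup (Fin n)), IsPrimitiveElt p →
        Nontrivial (PresentedGroup (Set.range (Function.update r i p))) := by
  classical
  obtain ⟨n, rfl⟩ : ∃ k, n = k + 1 := ⟨n - 1, by omega⟩
  let T : Fin (n + 1) → Type := fun j => alternatingGroup (Fin (deg j + 3))
  let : ∀ j, Group (T j) := fun j => inferInstanceAs (Group (alternatingGroup (Fin (deg j + 3))))
  have hsimple : ∀ j, IsSimpleGroup (T j) := fun j =>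
    alternatingGroup.isSimpleGroup (by have := two_le_deg j; simp; omega)
  have hTfin : ∀ j, Finite (T j) := fun j =>
    inferInstanceAs (Finite (alternatingGroup (Fin (deg j + 3))))
  have hnc : ∀ j, ∃ a b : T j, a * b ≠ b * a := fun j => alt_noncomm _ (two_le_deg j)
  have hgen : ∀ j, ∃ a b : T j, Subgroup.closure {a, b} = ⊤ := fun j =>
    alt_two_gen _ (deg_prime j) (deg_even j)
  have hKfin : ∀ j, {M : Subgroup (FreeGroup (Fin (n + 1))) |
      ∃ φ : FreeGroup (Fin (n + 1)) →* T j, Function.Surjective φ ∧ φ.ker = M}.Finite := by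
    intro j
    have hf : Finite (FreeGroup (Fin (n + 1)) →* T j) := Finite.of_equiv _ FreeGroup.lift
    refine (Set.finite_range (fun φ : FreeGroup (Fin (n + 1)) →* T j => φ.ker)).subset ?_
    rintro M ⟨φ, -, h⟩
    exact ⟨φ, h⟩
  let K : Fin (n + 1) → Finset (Subgroup (FreeGroup (Fin (n + 1)))) := fun j =>
    (hKfin j).toFinset
  have hKmem : ∀ j M, M ∈ K j ↔
      ∃ φ : FreeGroup (Fin (n + 1)) →* T j, Function.Surjective φ ∧ φ.ker = M := by
    intro j M
    exact (hKfin j).mem_toFinset
  obtain ⟨r, hr, hdeep⟩ := exists_deep (fun i : Fin (n + 1) => FreeGroup.of i)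
    (FreeGroup.closure_range_of _) K (by
      intro i M hM
      obtain ⟨φ, hφ, rfl⟩ := (hKmem i M).mp hM
      exact PM.ker (hnc i) φ hφ) (by
      intro i j M hi hj
      obtain ⟨φ, hφ, hφM⟩ := (hKmem i M).mp hi
      obtain ⟨ψ, hψ, hψM⟩ := (hKmem j M).mp hj
      have h1 : Nat.card (T i) = M.index := by
        rw [← hφM, Subgroup.index_ker, MonoidHom.range_eq_top.mpr hφ]
        simp
      have h2 : Nat.card (T j) = M.index := by
        rw [← hψM, Subgroup.index_ker, MonoidHom.range_eq_top.mpr hψ]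
        simp
      exact Fin.ext (deg_inj (card_alt_inj (h1.trans h2.symm))))
  refine ⟨r, ?_, ?_⟩
  · refine ⟨fun a b => ?_⟩
    have key : ∀ c : PresentedGroup (Set.range r), c = 1 := by
      intro c
      obtain ⟨x, rfl⟩ := QuotientGroup.mk_surjective c
      exact (QuotientGroup.eq_one_iff x).mpr (by rw [hr]; trivial)
    rw [key a, key b]
  · intro i p hp
    obtain ⟨φ, hφ, hφp⟩ := exists_epi_killing hn (hgen i) p hp
    have hrel : ∀ x ∈ Set.range (Function.update r i p), φ x = 1 := by
      rintro _ ⟨j, rfl⟩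
      by_cases hji : j = i
      · subst hji
        simpa using hφp
      · rw [Function.update_of_ne hji]
        exact hdeep j i hji φ.ker ((hKmem i _).mpr ⟨φ, hφ, rfl⟩)
    have hle : Subgroup.normalClosure (Set.range (Function.update r i p)) ≤ φ.ker :=
      Subgroup.normalClosure_le_normal (fun x hx => hrel x hx)
    have hne : Nontrivial (T i) := (hsimple i).toNontrivial
    obtain ⟨y, hy⟩ := exists_ne (1 : T i)
    obtain ⟨x, rfl⟩ := hφ y
    refine ⟨⟨QuotientGroup.mk x, 1, ?_⟩⟩
    intro h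
    have h1 : x ∈ Subgroup.normalClosure (Set.range (Function.update r i p)) :=
      (QuotientGroup.eq_one_iff x).mp h
    exact hy (hle h1)

end Pool.Agent.Results.MP_4f7194_al.NoPrimitiveSwap
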